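import Pool.Agent.Helper55.RT.Conf
import Pool.Agent.Helper37.RT.PairsOf

/-!
# Project RT, module A8e
-/

set_option autoImplicit false

open Finset

namespace Pool.Agent.Helper73.RT

/-- The bound for a single pair of sets. -/
theorem bad_e_base (t : ℕ) (ht : 10 ≤ t) (s : ℕ) (hs : s ≤ bT t * bT t) :
    Real.exp 1 * ((s : ℝ) * ((t ^ 40 : ℕ) : ℝ) ^ (4 - 2)) *
      (((30 * t : ℕ) : ℝ) / ((30 * t ^ 20 : ℕ) : ℝ)) ^ (Nat.choose 4 2) /
        ((10 * ell t * bT t : ℕ) : ℝ) ≤ 1 / (t : ℝ) ^ 12 := by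
  have hl : 1 ≤ ell t := by unfold ell; omega
  have ht0 : (0 : ℝ) < t := by
    have : 0 < t := by omega
    exact_mod_cast this
  have hl0 : (0 : ℝ) < ell t := by exact_mod_cast hl
  have hb : (bT t : ℝ) = 720 * ell t * (t : ℝ) ^ 19 := by
    unfold bT; push_cast; ring
  have hb0 : (0 : ℝ) < bT t := by rw [hb]; positivity
  have hch : Nat.choose 4 2 = 6 := by decide
  have hr : (((30 * t : ℕ) : ℝ) / ((30 * t ^ 20 : ℕ) : ℝ)) = 1 / (t : ℝ) ^ 19 := by
    push_cast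
    field_simp
  have hs' : (s : ℝ) ≤ (bT t : ℝ) * bT t := by exact_mod_cast hs
  have he : Real.exp 1 < 2.7182818286 := Real.exp_one_lt_d9
  rw [hch, hr]
  push_cast
  have h1 : Real.exp 1 * ((s : ℝ) * ((t : ℝ) ^ 40) ^ (4 - 2)) * (1 / (t : ℝ) ^ 19) ^ 6 /
      (10 * ell t * bT t) ≤
      Real.exp 1 * (((bT t : ℝ) * bT t) * ((t : ℝ) ^ 40) ^ (4 - 2)) * (1 / (t : ℝ) ^ 19) ^ 6 /
      (10 * ell t * bT t) := by
    gcongr
  refine le_trans h1 ?_
  have h2 : Real.exp 1 * (((bT t : ℝ) * bT t) * ((t : ℝ) ^ 40) ^ (4 - 2)) *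
      (1 / (t : ℝ) ^ 19) ^ 6 / (10 * ell t * bT t) = 72 * Real.exp 1 / (t : ℝ) ^ 15 := by
    rw [hb]
    field_simp
    ring
  rw [h2, div_le_div_iff₀ (by positivity) (by positivity)]
  have h3 : (1000 : ℝ) ≤ (t : ℝ) ^ 3 := by
    have : (10 : ℝ) ≤ t := by exact_mod_cast ht
    calc (1000 : ℝ) = 10 ^ 3 := by norm_num
      _ ≤ (t : ℝ) ^ 3 := by gcongr
  have h4 : 72 * Real.exp 1 ≤ (t : ℝ) ^ 3 := by
    nlinarith
  calc 72 * Real.exp 1 * (t : ℝ) ^ 12 ≤ (t : ℝ) ^ 3 * (t : ℝ) ^ 12 := by gcongr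
    _ = 1 * (t : ℝ) ^ 15 := by ring

theorem bad_e_ncard_biUnion_le {α β : Type*} (s : Finset α) (A : α → Set β) :
    (⋃ p ∈ s, A p).ncard ≤ ∑ p ∈ s, (A p).ncard := by
  classical
  induction s using Finset.induction_on with
  | empty => simp
  | insert a s ha ih =>
    rw [Finset.set_biUnion_insert, Finset.sum_insert ha]
    exact le_trans (Set.ncard_union_le _ _) (by omega)

/-- RT-A8e. Few colourings have many edge-disjoint `K_4` meeting the pairs between `J` and `J'`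
(needs A4, A6). -/
theorem bad_e (t : ℕ) (ht : 10 ≤ t) :
    ({f : Sym2 (Fin (t ^ 40)) → Fin (30 * t ^ 20) |
        ∃ J J' : Finset (Fin (t ^ 40)), J.card = bT t ∧ J'.card = bT t ∧
          ∃ D : Finset (Finset (Fin (t ^ 40))),
          D.card = 10 * ell t * bT t ∧ EdgeDisj D ∧
          ∀ K ∈ D, (colGraph f (30 * t)).IsNClique 4 K ∧
            ∃ e ∈ pairsOf K K, e ∈ pairsOf J J'}.ncard : ℝ)
      < ((30 * t ^ 20 : ℕ) : ℝ) ^ Fintype.card (Sym2 (Fin (t ^ 40))) / 5 := by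
  classical
  have hl : 1 ≤ ell t := by unfold ell; omega
  have ht0 : 0 < t := by omega
  have ht0R : (0 : ℝ) < t := by exact_mod_cast ht0
  have hb1 : 1 ≤ bT t := by
    unfold bT
    have : 0 < 720 * ell t * t ^ 19 := by positivity
    omega
  have hQ : 0 < 30 * t ^ 20 := by positivity
  have hq : 30 * t ≤ 30 * t ^ 20 := by
    have : t ^ 1 ≤ t ^ 20 := Nat.pow_le_pow_right ht0 (by norm_num)
    simpa using this
  have hT : 0 < 10 * ell t * bT t := by positivity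
  set N := t ^ 40 with hN
  set Q := 30 * t ^ 20 with hQd
  set P := (powersetCard (bT t) (univ : Finset (Fin N))) ×ˢ
    (powersetCard (bT t) (univ : Finset (Fin N))) with hP
  set A : Finset (Fin N) × Finset (Fin N) → Set (Sym2 (Fin N) → Fin Q) := fun p =>
    {f : Sym2 (Fin N) → Fin Q | ∃ D : Finset (Finset (Fin N)),
        D.card = 10 * ell t * bT t ∧ EdgeDisj D ∧
        ∀ K ∈ D, (colGraph f (30 * t)).IsNClique 4 K ∧
          ∃ e ∈ pairsOf K K, e ∈ pairsOf p.1 p.2} with hA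
  have hsub : {f : Sym2 (Fin N) → Fin Q |
        ∃ J J' : Finset (Fin N), J.card = bT t ∧ J'.card = bT t ∧
          ∃ D : Finset (Finset (Fin N)),
          D.card = 10 * ell t * bT t ∧ EdgeDisj D ∧
          ∀ K ∈ D, (colGraph f (30 * t)).IsNClique 4 K ∧
            ∃ e ∈ pairsOf K K, e ∈ pairsOf J J'} ⊆ ⋃ p ∈ P, A p := by
    rintro f ⟨J, J', hJ, hJ', D, hD⟩
    refine Set.mem_iUnion₂.2 ⟨(J, J'), ?_, D, hD⟩
    simp [hP, mem_product, mem_powersetCard, hJ, hJ']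
  have hunion : ((⋃ p ∈ P, A p).ncard : ℝ) ≤ ∑ p ∈ P, ((A p).ncard : ℝ) := by
    exact_mod_cast bad_e_ncard_biUnion_le P A
  have hcount : (({f : Sym2 (Fin N) → Fin Q |
        ∃ J J' : Finset (Fin N), J.card = bT t ∧ J'.card = bT t ∧
          ∃ D : Finset (Finset (Fin N)),
          D.card = 10 * ell t * bT t ∧ EdgeDisj D ∧
          ∀ K ∈ D, (colGraph f (30 * t)).IsNClique 4 K ∧
            ∃ e ∈ pairsOf K K, e ∈ pairsOf J J'}.ncard : ℕ) : ℝ) ≤ ∑ p ∈ P, ((A p).ncard : ℝ) := by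
    refine le_trans ?_ hunion
    exact_mod_cast Set.ncard_le_ncard hsub (Set.toFinite _)
  have heach : ∀ p ∈ P, ((A p).ncard : ℝ) ≤
      (1 / (t : ℝ) ^ 12) ^ (10 * ell t * bT t) * (Q : ℝ) ^ Fintype.card (Sym2 (Fin N)) := by
    intro p hp
    rw [hP, mem_product, mem_powersetCard, mem_powersetCard] at hp
    refine le_trans (conf_bound hQ (30 * t) hq 4 (by norm_num) (pairsOf p.1 p.2)
      (10 * ell t * bT t) hT) ?_
    have hs : (pairsOf p.1 p.2).card ≤ bT t * bT t := by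
      have := pairsOf_card_le p.1 p.2
      rwa [hp.1.2, hp.2.2] at this
    have hb := bad_e_base t ht _ hs
    gcongr
  have hPc : (P.card : ℝ) ≤ (t : ℝ) ^ (80 * bT t) := by
    have h1 : P.card ≤ N ^ bT t * N ^ bT t := by
      rw [hP, card_product, card_powersetCard, card_univ, Fintype.card_fin]
      exact Nat.mul_le_mul (Nat.choose_le_pow _ _) (Nat.choose_le_pow _ _)
    have h2 : N ^ bT t * N ^ bT t = t ^ (80 * bT t) := by
      rw [hN, ← pow_mul, ← pow_add]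
      congr 1
      ring
    rw [h2] at h1
    exact_mod_cast h1
  have hsum : ∑ p ∈ P, ((A p).ncard : ℝ) ≤ (t : ℝ) ^ (80 * bT t) *
      ((1 / (t : ℝ) ^ 12) ^ (10 * ell t * bT t) *
        (Q : ℝ) ^ Fintype.card (Sym2 (Fin N))) := by
    refine le_trans (Finset.sum_le_card_nsmul _ _ _ heach) ?_
    rw [nsmul_eq_mul]
    gcongr
  have hfin : (t : ℝ) ^ (80 * bT t) * (1 / (t : ℝ) ^ 12) ^ (10 * ell t * bT t) ≤ 1 / 10 := by
    rw [one_div, inv_pow, ← pow_mul, ← div_eq_mul_inv, div_le_div_iff₀ (by positivity)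
      (by norm_num)]
    have h10 : (10 : ℝ) ≤ t := by exact_mod_cast ht
    have h1t : (1 : ℝ) ≤ t := by linarith
    have hexp : 80 * bT t + 1 ≤ 12 * (10 * ell t * bT t) := by
      have : bT t ≤ ell t * bT t := Nat.le_mul_of_pos_left _ hl
      nlinarith
    calc (t : ℝ) ^ (80 * bT t) * 10 ≤ (t : ℝ) ^ (80 * bT t) * t := by gcongr
      _ = (t : ℝ) ^ (80 * bT t + 1) := by rw [pow_succ]
      _ ≤ (t : ℝ) ^ (12 * (10 * ell t * bT t)) := pow_le_pow_right₀ h1t hexp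
      _ = 1 * (t : ℝ) ^ (12 * (10 * ell t * bT t)) := by rw [one_mul]
  have hQp : (0 : ℝ) < (Q : ℝ) ^ Fintype.card (Sym2 (Fin N)) := by
    have : (0 : ℝ) < Q := by exact_mod_cast hQ
    positivity
  calc _ ≤ ∑ p ∈ P, ((A p).ncard : ℝ) := hcount
    _ ≤ (t : ℝ) ^ (80 * bT t) * ((1 / (t : ℝ) ^ 12) ^ (10 * ell t * bT t) *
        (Q : ℝ) ^ Fintype.card (Sym2 (Fin N))) := hsum
    _ = (t : ℝ) ^ (80 * bT t) * (1 / (t : ℝ) ^ 12) ^ (10 * ell t * bT t) *
        (Q : ℝ) ^ Fintype.card (Sym2 (Fin N)) := by ring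
    _ ≤ 1 / 10 * (Q : ℝ) ^ Fintype.card (Sym2 (Fin N)) := by gcongr
    _ < (Q : ℝ) ^ Fintype.card (Sym2 (Fin N)) / 5 := by linarith

end Pool.Agent.Helper73.RT
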